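import Mathlib

/-!
A ray of the Dressian Dr(3,9) that does not come from a corank vector: data and the rigidity lemma.
-/

set_option autoImplicit false

namespace Pool.Agent.W310.Dressian

open Finset

/-- table of the values of the tropical Pluecker vector, in base 16, indexed by bit masks -/
def T : ℕ := 279095111627852376407822673918065072906708122163311893103354461712884642363090634770327750876793747220276258187715996991742583815560830098162806241690488580927286186207338520974949918450373869758721625201475320499396910850730838933065666742269439141265298519005624889616115543488162898575613084964352854040524875010509670377886085518601793903958846540732474939508021660075016628597207203624033847545574039333585247218100967251162231282580962555064996588974491880995052103383281140732332970407831516359584934549888132942353889652834039758848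

/-- value at the set with a given bit mask -/
def wz (m : ℕ) : ℤ := (((T >>> (4 * m)) &&& 15 : ℕ) : ℤ)

/-- set with a given bit mask -/
def fs (m : ℕ) : Finset (Fin 9) := Finset.univ.filter (fun i => m.testBit i.val = true)

/-- bit mask of a set -/
def msk (B : Finset (Fin 9)) : ℕ := ∑ i ∈ B, 2 ^ i.val

/-- the tropical Pluecker vector -/
noncomputable def w (B : Finset (Fin 9)) : ℝ := (wz (msk B) : ℝ)

/-- the covectors of six cells -/
def cz (t : Fin 6) (i : Fin 9) : ℤ :=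
  (![![-1, -1, 0, -1, -1, -1, -1, 0, 0],
    ![0, 0, 0, 0, 0, 0, 0, 0, 0],
    ![-1, -2, 0, -2, -1, -1, -2, -1, 0],
    ![0, -2, 0, -2, -1, 0, -2, -1, 0],
    ![-1, 0, 0, -1, -1, -1, 0, 0, 0],
    ![0, -1, 0, -1, 0, 0, -1, 0, 0]] : Fin 6 → Fin 9 → ℤ) t i

/-- the minima of the six cells -/
def mu (t : Fin 6) : ℤ := (![2, 0, 3, 2, 1, 1] : Fin 6 → ℤ) t

/-- the derivation steps -/
def steps : List (Fin 6 × ℕ × ℕ × ℕ × ℕ) := [(1, 42, 7, 38, 11), (1, 73, 7, 11, 69), (1, 25, 7, 19, 13), (0, 44, 7, 38, 13), (1, 67, 13, 73, 7), (0, 137, 7, 13, 131), (0, 265, 7, 259, 13), (1, 26, 7, 14, 19), (1, 35, 14, 42, 7), (1, 74, 7, 67, 14), (0, 76, 7, 14, 69), (0, 138, 7, 14, 131), (0, 140, 7, 14, 133), (0, 266, 7, 14, 259), (1, 50, 7, 38, 19), (1, 56, 7, 44, 19), (1, 81, 7, 19, 69), (1, 88, 7, 19, 76), (5, 145, 7, 19, 133), (5, 21, 131, 7, 145), (2, 273, 7, 21, 259), (1, 22, 35, 50, 7), (1, 41, 22, 56,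 7), (1, 82, 7, 67, 22), (0, 84, 7, 22, 69), (0, 146, 7, 131, 22), (0, 148, 7, 133, 22), (0, 152, 7, 22, 137), (0, 274, 7, 259, 22), (0, 280, 7, 265, 22), (1, 28, 35, 56, 7), (1, 97, 7, 35, 69), (1, 104, 7, 35, 76), (1, 112, 7, 84, 35), (3, 161, 7, 35, 133), (5, 176, 7, 35, 148), (1, 98, 7, 67, 38), (0, 100, 7, 38, 69), (0, 162, 7, 38, 131), (0, 164, 7, 38, 133), (0, 168, 7, 38, 137), (0, 290, 7, 38, 259), (0, 296, 7, 265, 38), (2, 304, 7, 38, 273), (5, 52, 131, 176, 7), (0, 193, 7, 131, 69), (0, 200, 7, 138, 69), (0, 208, 7, 146, 69), (0, 224, 7, 162, 69), (0, 321, 7, 259, 69), (0, 328, 7, 266, 69), (0, 336, 7, 274, 69), (0, 352, 7, 290, 69), (0, 385, 7, 259, 133), (0, 392, 7, 133, 266), (0, 400, 7, 274, 133), (0, 416, 7, 133, 290), (0, 134, 265, 392, 7), (0, 448, 7, 321, 134), (0, 262, 137, 392, 7), (0, 196, 259, 448, 7), (0, 386, 13, 14, 385), (3, 49, 13, 21, 41), (0, 268, 131, 386,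 13), (0, 388, 13, 268, 133), (0, 324, 137, 448, 13), (4, 194, 14, 74, 134), (4, 322, 14, 262, 74), (2, 261, 22, 21, 262), (3, 289, 21, 49, 261), (2, 292, 21, 261, 52), (2, 276, 69, 324, 21), (4, 70, 146, 194, 22), (3, 37, 259, 261, 35)]

/-- the masks of ten sets that determine everything -/
def base : List ℕ := [7, 19, 13, 133, 131, 11, 69, 14, 38, 259]

lemma msk_triple (a b c : Fin 9) (h1 : a ≠ b) (h2 : a ≠ c) (h3 : b ≠ c) :
    msk {a, b, c} = 2 ^ a.val + 2 ^ b.val + 2 ^ c.val := by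
  unfold msk
  rw [Finset.sum_insert (by simp [h1, h2]), Finset.sum_insert (by simp [h3]), Finset.sum_singleton]
  ring

lemma fs_triple : ∀ a b c : Fin 9, a ≠ b → a ≠ c → b ≠ c →
    fs (2 ^ a.val + 2 ^ b.val + 2 ^ c.val) = {a, b, c} := by
  decide +kernel

lemma cell_min : ∀ t : Fin 6, ∀ a b c : Fin 9, a ≠ b → a ≠ c → b ≠ c →
    mu t ≤ wz (2 ^ a.val + 2 ^ b.val + 2 ^ c.val) - (cz t a + (cz t b + cz t c)) := by
  decide +kernel

/-- a set of the cell `t` -/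
def tight (t : Fin 6) (m : ℕ) : Prop :=
  (fs m).card = 3 ∧ wz m - ∑ i ∈ fs m, cz t i = mu t ∧ msk (fs m) = m

instance (t : Fin 6) (m : ℕ) : Decidable (tight t m) := by unfold tight; infer_instance

/-- a correct derivation step -/
def stepOK (s : Fin 6 × ℕ × ℕ × ℕ × ℕ) : Prop :=
  tight s.1 s.2.1 ∧ tight s.1 s.2.2.1 ∧ tight s.1 s.2.2.2.1 ∧ tight s.1 s.2.2.2.2 ∧
  fs s.2.1 ∪ fs s.2.2.1 = fs s.2.2.2.1 ∪ fs s.2.2.2.2 ∧
  fs s.2.1 ∩ fs s.2.2.1 = fs s.2.2.2.1 ∩ fs s.2.2.2.2 ∧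
  wz s.2.1 + wz s.2.2.1 = wz s.2.2.2.1 + wz s.2.2.2.2

instance (s : Fin 6 × ℕ × ℕ × ℕ × ℕ) : Decidable (stepOK s) := by unfold stepOK; infer_instance

lemma steps_ok : ∀ s ∈ steps, stepOK s := by decide +kernel

/-- closure of a list of masks under the steps -/
def run : List (Fin 6 × ℕ × ℕ × ℕ × ℕ) → List ℕ → List ℕ
  | [], k => k
  | s :: l, k => run l (if s.2.2.1 ∈ k ∧ s.2.2.2.1 ∈ k ∧ s.2.2.2.2 ∈ k then s.2.1 :: k else k)

lemma run_sound (U : ℕ → ℝ) (l : List (Fin 6 × ℕ × ℕ × ℕ × ℕ)) :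
    ∀ k : List ℕ, (∀ s ∈ l, U s.2.1 + U s.2.2.1 = U s.2.2.2.1 + U s.2.2.2.2) →
      (∀ m ∈ k, U m = 0) → ∀ m ∈ run l k, U m = 0 := by
  induction l with
  | nil => intro k _ hk; simpa [run] using hk
  | cons s l ih =>
    intro k hs hk
    unfold run
    apply ih
    · intro s' hs'; exact hs s' (List.mem_cons_of_mem _ hs')
    · split_ifs with hcond
      · intro m hm
        rcases List.mem_cons.1 hm with rfl | hm
        · have h1 := hs s List.mem_cons_self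
          rw [hk _ hcond.1, hk _ hcond.2.1, hk _ hcond.2.2] at h1
          linarith
        · exact hk m hm
      · exact hk

lemma run_all : ∀ a b c : Fin 9, a ≠ b → a ≠ c → b ≠ c →
    (2 ^ a.val + 2 ^ b.val + 2 ^ c.val) ∈ run steps base := by
  decide +kernel

lemma card_three (B : Finset (Fin 9)) (hB : B.card = 3) :
    ∃ a b c : Fin 9, a ≠ b ∧ a ≠ c ∧ b ≠ c ∧ B = {a, b, c} := by
  obtain ⟨a, b, c, h1, h2, h3, h4⟩ := Finset.card_eq_three.1 hB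
  exact ⟨a, b, c, h1, h2, h3, h4⟩

lemma sum_triple (f : Fin 9 → ℝ) (a b c : Fin 9) (h1 : a ≠ b) (h2 : a ≠ c) (h3 : b ≠ c) :
    ∑ i ∈ ({a, b, c} : Finset (Fin 9)), f i = f a + (f b + f c) := by
  rw [Finset.sum_insert (by simp [h1, h2]), Finset.sum_insert (by simp [h3]), Finset.sum_singleton]

/-- the coefficient of `w` in a function that is linear on all cells -/
noncomputable def lam (v : Finset (Fin 9) → ℝ) : ℝ :=
  (-1 : ℝ) * v {0, 2, 3} + (1 : ℝ) * v {0, 2, 7} + (-1 : ℝ) * v {0, 1, 7} + (1 : ℝ) * v {0, 1, 3}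

/-- the linear part of a function that is linear on all cells -/
noncomputable def hh (v : Finset (Fin 9) → ℝ) : Fin 9 → ℝ :=
  ![(1/3 : ℝ) * v {0, 1, 2} + (1/3 : ℝ) * v {0, 2, 3} + (1/3 : ℝ) * v {0, 1, 3} + (-2/3 : ℝ) * v {1, 2, 3},
    (1/3 : ℝ) * v {0, 1, 2} + (-2/3 : ℝ) * v {0, 2, 3} + (1/3 : ℝ) * v {0, 1, 3} + (1/3 : ℝ) * v {1, 2, 3},
    (1/3 : ℝ) * v {0, 1, 2} + (1/3 : ℝ) * v {0, 2, 3} + (-2/3 : ℝ) * v {0, 1, 3} + (1/3 : ℝ) * v {1, 2, 3},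
    (-2/3 : ℝ) * v {0, 1, 2} + (1/3 : ℝ) * v {0, 2, 3} + (1/3 : ℝ) * v {0, 1, 3} + (1/3 : ℝ) * v {1, 2, 3},
    (-2/3 : ℝ) * v {0, 1, 2} + (1 : ℝ) * v {0, 1, 4} + (1/3 : ℝ) * v {0, 2, 3} + (-2/3 : ℝ) * v {0, 1, 3} + (1/3 : ℝ) * v {1, 2, 3},
    (-2/3 : ℝ) * v {0, 1, 2} + (1/3 : ℝ) * v {0, 2, 3} + (1/3 : ℝ) * v {0, 1, 3} + (-2/3 : ℝ) * v {1, 2, 3} + (1 : ℝ) * v {1, 2, 5},
    (-2/3 : ℝ) * v {0, 1, 2} + (-2/3 : ℝ) * v {0, 2, 3} + (1/3 : ℝ) * v {0, 1, 3} + (1 : ℝ) * v {0, 2, 6} + (1/3 : ℝ) * v {1, 2, 3},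
    (-2/3 : ℝ) * v {0, 1, 2} + (1/3 : ℝ) * v {0, 2, 3} + (1 : ℝ) * v {0, 1, 7} + (-2/3 : ℝ) * v {0, 1, 3} + (1/3 : ℝ) * v {1, 2, 3},
    (-2/3 : ℝ) * v {0, 1, 2} + (1/3 : ℝ) * v {0, 2, 3} + (-2/3 : ℝ) * v {0, 1, 3} + (1/3 : ℝ) * v {1, 2, 3} + (1 : ℝ) * v {0, 1, 8}]

lemma hh_0 (v : Finset (Fin 9) → ℝ) : hh v 0 = (1/3 : ℝ) * v {0, 1, 2} + (1/3 : ℝ) * v {0, 2, 3} + (1/3 : ℝ) * v {0, 1, 3} + (-2/3 : ℝ) * v {1, 2, 3} := rfl

lemma hh_1 (v : Finset (Fin 9) → ℝ) : hh v 1 = (1/3 : ℝ) * v {0, 1, 2} + (-2/3 : ℝ) * v {0, 2, 3} + (1/3 : ℝ) * v {0, 1, 3} + (1/3 : ℝ) * v {1, 2, 3} := rfl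

lemma hh_2 (v : Finset (Fin 9) → ℝ) : hh v 2 = (1/3 : ℝ) * v {0, 1, 2} + (1/3 : ℝ) * v {0, 2, 3} + (-2/3 : ℝ) * v {0, 1, 3} + (1/3 : ℝ) * v {1, 2, 3} := rfl

lemma hh_3 (v : Finset (Fin 9) → ℝ) : hh v 3 = (-2/3 : ℝ) * v {0, 1, 2} + (1/3 : ℝ) * v {0, 2, 3} + (1/3 : ℝ) * v {0, 1, 3} + (1/3 : ℝ) * v {1, 2, 3} := rfl

lemma hh_4 (v : Finset (Fin 9) → ℝ) : hh v 4 = (-2/3 : ℝ) * v {0, 1, 2} + (1 : ℝ) * v {0, 1, 4} + (1/3 : ℝ) * v {0, 2, 3} + (-2/3 : ℝ) * v {0, 1, 3} + (1/3 : ℝ) * v {1, 2, 3} := rfl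

lemma hh_5 (v : Finset (Fin 9) → ℝ) : hh v 5 = (-2/3 : ℝ) * v {0, 1, 2} + (1/3 : ℝ) * v {0, 2, 3} + (1/3 : ℝ) * v {0, 1, 3} + (-2/3 : ℝ) * v {1, 2, 3} + (1 : ℝ) * v {1, 2, 5} := rfl

lemma hh_6 (v : Finset (Fin 9) → ℝ) : hh v 6 = (-2/3 : ℝ) * v {0, 1, 2} + (-2/3 : ℝ) * v {0, 2, 3} + (1/3 : ℝ) * v {0, 1, 3} + (1 : ℝ) * v {0, 2, 6} + (1/3 : ℝ) * v {1, 2, 3} := rfl

lemma hh_7 (v : Finset (Fin 9) → ℝ) : hh v 7 = (-2/3 : ℝ) * v {0, 1, 2} + (1/3 : ℝ) * v {0, 2, 3} + (1 : ℝ) * v {0, 1, 7} + (-2/3 : ℝ) * v {0, 1, 3} + (1/3 : ℝ) * v {1, 2, 3} := rfl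

lemma hh_8 (v : Finset (Fin 9) → ℝ) : hh v 8 = (-2/3 : ℝ) * v {0, 1, 2} + (1/3 : ℝ) * v {0, 2, 3} + (-2/3 : ℝ) * v {0, 1, 3} + (1/3 : ℝ) * v {1, 2, 3} + (1 : ℝ) * v {0, 1, 8} := rfl

lemma base_7 (v : Finset (Fin 9) → ℝ) :
    v (fs 7) - lam v * (wz 7 : ℝ) - ∑ i ∈ fs 7, hh v i = 0 := by
  have h1 : fs 7 = {0, 1, 2} := by decide +kernel
  have h2 : wz 7 = 0 := by decide +kernel
  rw [h1, h2, sum_triple _ _ _ _ (by decide) (by decide) (by decide), hh_0, hh_1, hh_2, lam]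
  push_cast
  ring

lemma base_19 (v : Finset (Fin 9) → ℝ) :
    v (fs 19) - lam v * (wz 19 : ℝ) - ∑ i ∈ fs 19, hh v i = 0 := by
  have h1 : fs 19 = {0, 1, 4} := by decide +kernel
  have h2 : wz 19 = 0 := by decide +kernel
  rw [h1, h2, sum_triple _ _ _ _ (by decide) (by decide) (by decide), hh_0, hh_1, hh_4, lam]
  push_cast
  ring

lemma base_13 (v : Finset (Fin 9) → ℝ) :
    v (fs 13) - lam v * (wz 13 : ℝ) - ∑ i ∈ fs 13, hh v i = 0 := by
  have h1 : fs 13 = {0, 2, 3} := by decide +kernel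
  have h2 : wz 13 = 0 := by decide +kernel
  rw [h1, h2, sum_triple _ _ _ _ (by decide) (by decide) (by decide), hh_0, hh_2, hh_3, lam]
  push_cast
  ring

lemma base_133 (v : Finset (Fin 9) → ℝ) :
    v (fs 133) - lam v * (wz 133 : ℝ) - ∑ i ∈ fs 133, hh v i = 0 := by
  have h1 : fs 133 = {0, 2, 7} := by decide +kernel
  have h2 : wz 133 = 1 := by decide +kernel
  rw [h1, h2, sum_triple _ _ _ _ (by decide) (by decide) (by decide), hh_0, hh_2, hh_7, lam]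
  push_cast
  ring

lemma base_131 (v : Finset (Fin 9) → ℝ) :
    v (fs 131) - lam v * (wz 131 : ℝ) - ∑ i ∈ fs 131, hh v i = 0 := by
  have h1 : fs 131 = {0, 1, 7} := by decide +kernel
  have h2 : wz 131 = 0 := by decide +kernel
  rw [h1, h2, sum_triple _ _ _ _ (by decide) (by decide) (by decide), hh_0, hh_1, hh_7, lam]
  push_cast
  ring

lemma base_11 (v : Finset (Fin 9) → ℝ) :
    v (fs 11) - lam v * (wz 11 : ℝ) - ∑ i ∈ fs 11, hh v i = 0 := by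
  have h1 : fs 11 = {0, 1, 3} := by decide +kernel
  have h2 : wz 11 = 0 := by decide +kernel
  rw [h1, h2, sum_triple _ _ _ _ (by decide) (by decide) (by decide), hh_0, hh_1, hh_3, lam]
  push_cast
  ring

lemma base_69 (v : Finset (Fin 9) → ℝ) :
    v (fs 69) - lam v * (wz 69 : ℝ) - ∑ i ∈ fs 69, hh v i = 0 := by
  have h1 : fs 69 = {0, 2, 6} := by decide +kernel
  have h2 : wz 69 = 0 := by decide +kernel
  rw [h1, h2, sum_triple _ _ _ _ (by decide) (by decide) (by decide), hh_0, hh_2, hh_6, lam]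
  push_cast
  ring

lemma base_14 (v : Finset (Fin 9) → ℝ) :
    v (fs 14) - lam v * (wz 14 : ℝ) - ∑ i ∈ fs 14, hh v i = 0 := by
  have h1 : fs 14 = {1, 2, 3} := by decide +kernel
  have h2 : wz 14 = 0 := by decide +kernel
  rw [h1, h2, sum_triple _ _ _ _ (by decide) (by decide) (by decide), hh_1, hh_2, hh_3, lam]
  push_cast
  ring

lemma base_38 (v : Finset (Fin 9) → ℝ) :
    v (fs 38) - lam v * (wz 38 : ℝ) - ∑ i ∈ fs 38, hh v i = 0 := by
  have h1 : fs 38 = {1, 2, 5} := by decide +kernel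
  have h2 : wz 38 = 0 := by decide +kernel
  rw [h1, h2, sum_triple _ _ _ _ (by decide) (by decide) (by decide), hh_1, hh_2, hh_5, lam]
  push_cast
  ring

lemma base_259 (v : Finset (Fin 9) → ℝ) :
    v (fs 259) - lam v * (wz 259 : ℝ) - ∑ i ∈ fs 259, hh v i = 0 := by
  have h1 : fs 259 = {0, 1, 8} := by decide +kernel
  have h2 : wz 259 = 0 := by decide +kernel
  rw [h1, h2, sum_triple _ _ _ _ (by decide) (by decide) (by decide), hh_0, hh_1, hh_8, lam]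
  push_cast
  ring

/-- the sets of covectors: the cell of a height function selected by a linear functional -/
def cell (f : Finset (Fin 9) → ℝ) (c : Fin 9 → ℝ) : Set (Finset (Fin 9)) :=
  {B | B.card = 3 ∧ ∀ B' : Finset (Fin 9), B'.card = 3 →
    f B - ∑ i ∈ B, c i ≤ f B' - ∑ i ∈ B', c i}

lemma tight_mem {t : Fin 6} {m : ℕ} (h : tight t m) : fs m ∈ cell w (fun i => (cz t i : ℝ)) := by
  obtain ⟨h1, h2, h3⟩ := h
  refine ⟨h1, fun B' hB' => ?_⟩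
  obtain ⟨a, b, c, hab, hac, hbc, rfl⟩ := card_three B' hB'
  have h4 := cell_min t a b c hab hac hbc
  have h5 : w (fs m) - ∑ i ∈ fs m, (cz t i : ℝ) = (mu t : ℝ) := by
    unfold w
    rw [h3, ← h2]
    push_cast
    ring
  rw [h5, sum_triple _ _ _ _ hab hac hbc]
  unfold w
  rw [msk_triple a b c hab hac hbc]
  have h6 : ((mu t : ℤ) : ℝ) ≤ ((wz (2 ^ a.val + 2 ^ b.val + 2 ^ c.val) - (cz t a + (cz t b + cz t c)) : ℤ) : ℝ) := by
    exact_mod_cast h4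
  push_cast at h6
  exact h6

lemma sum_inter (f : Fin 9 → ℝ) (A B C D : Finset (Fin 9)) (h1 : A ∪ B = C ∪ D)
    (h2 : A ∩ B = C ∩ D) : ∑ i ∈ A, f i + ∑ i ∈ B, f i = ∑ i ∈ C, f i + ∑ i ∈ D, f i := by
  have e1 := Finset.sum_union_inter (s₁ := A) (s₂ := B) (f := f)
  have e2 := Finset.sum_union_inter (s₁ := C) (s₂ := D) (f := f)
  rw [← e1, ← e2, h1, h2]

/-- a function that is linear on the cells of `w` is `lam v * w` plus a linear function -/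
theorem rigid (v : Finset (Fin 9) → ℝ)
    (H : ∀ c : Fin 9 → ℝ, ∃ c' : Fin 9 → ℝ, cell w c ⊆ cell v c')
    (B : Finset (Fin 9)) (hB : B.card = 3) : v B = lam v * w B + ∑ i ∈ B, hh v i := by
  have key : ∀ s ∈ steps, v (fs s.2.1) + v (fs s.2.2.1) = v (fs s.2.2.2.1) + v (fs s.2.2.2.2) := by
    intro s hs
    obtain ⟨k1, k2, k3, k4, k5, k6, _⟩ := steps_ok s hs
    obtain ⟨c', hc'⟩ := H (fun i => (cz s.1 i : ℝ))
    have m1 := hc' (tight_mem k1)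
    have m2 := hc' (tight_mem k2)
    have m3 := hc' (tight_mem k3)
    have m4 := hc' (tight_mem k4)
    have e12 := le_antisymm (m1.2 _ m2.1) (m2.2 _ m1.1)
    have e13 := le_antisymm (m1.2 _ m3.1) (m3.2 _ m1.1)
    have e14 := le_antisymm (m1.2 _ m4.1) (m4.2 _ m1.1)
    have e5 := sum_inter c' _ _ _ _ k5 k6
    linarith
  set U : ℕ → ℝ := fun m => v (fs m) - lam v * (wz m : ℝ) - ∑ i ∈ fs m, hh v i with hU
  have hsteps : ∀ s ∈ steps, U s.2.1 + U s.2.2.1 = U s.2.2.2.1 + U s.2.2.2.2 := by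
    intro s hs
    obtain ⟨_, _, _, _, k5, k6, k7⟩ := steps_ok s hs
    have e1 := key s hs
    have e5 := sum_inter (hh v) _ _ _ _ k5 k6
    have e7 : ((wz s.2.1 : ℤ) : ℝ) + (wz s.2.2.1 : ℝ) = (wz s.2.2.2.1 : ℝ) + (wz s.2.2.2.2 : ℝ) := by
      exact_mod_cast k7
    simp only [hU]
    linear_combination e1 - lam v * e7 - e5
  have hbase : ∀ m ∈ base, U m = 0 := by
    intro m hm
    simp only [base, List.mem_cons, List.not_mem_nil, or_false] at hm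
    rcases hm with rfl | rfl | rfl | rfl | rfl | rfl | rfl | rfl | rfl | rfl
    · exact base_7 v
    · exact base_19 v
    · exact base_13 v
    · exact base_133 v
    · exact base_131 v
    · exact base_11 v
    · exact base_69 v
    · exact base_14 v
    · exact base_38 v
    · exact base_259 v
  have hall := run_sound U steps base hsteps hbase
  obtain ⟨a, b, c, hab, hac, hbc, rfl⟩ := card_three B hB
  have h0 := hall _ (run_all a b c hab hac hbc)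
  simp only [hU] at h0
  rw [fs_triple a b c hab hac hbc] at h0
  unfold w
  rw [msk_triple a b c hab hac hbc]
  linarith

end Pool.Agent.W310.Dressian
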