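import Mathlib

set_option autoImplicit false

/-!
# A counterexample to Kahn's two-dimensional version of Rota's basis conjecture

Over `GF(2)`, in dimension `4`.  With the standard basis `a, b, c, d`
(coordinates `0, 1, 2, 3`) the sixteen bases are

* `B i j = {a, b, c, d}` for `i, j < 3`,
* `B i 3 = {b, c, a+b+c, b+c+d}` for `i < 3`,
* `B 3 j = {a, d, a+c, b+d}` for `j < 3`,
* `B 3 3 = {a+b+c, b+d, a+c, b+c+d}`.

Hand proof.  Let `m i` be the element of `{a,b,c,d}` missing from the first three entries of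
row `i < 3`, `m' j` the one missing from the first three entries of column `j < 3`; as
multisets `{m i} = {m' j} =: M`.  A row missing `a` (resp. `d`) has last entry `a+b+c`
(resp. `b+c+d`), a column missing `b` (resp. `c`) has last entry `b+d` (resp. `a+c`); hence
`M` has no repetition, and for each of the four possible sets `M` the corner entry is forced
to be equal to an entry of the last row or of the last column.

In this file the finite check is done by a pruned search evaluated in the kernel.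
-/

namespace Pool.Agent.W310.Kahn

/-- The four kinds of bases: `0` = corner block, `1` = last column, `2` = last row,
`3` = the corner entry. -/
def tab : Fin 4 → Fin 4 → Fin 4 → ZMod 2
  | 0 => ![![1,0,0,0], ![0,1,0,0], ![0,0,1,0], ![0,0,0,1]]
  | 1 => ![![0,1,0,0], ![0,0,1,0], ![1,1,1,0], ![0,1,1,1]]
  | 2 => ![![1,0,0,0], ![0,0,0,1], ![1,0,1,0], ![0,1,0,1]]
  | 3 => ![![1,1,1,0], ![0,1,0,1], ![1,0,1,0], ![0,1,1,1]]

/-- The kind of the basis in position `(i, j)`. -/
def kind (i j : Fin 4) : Fin 4 :=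
  if i = 3 then (if j = 3 then 3 else 2) else (if j = 3 then 1 else 0)

/-- The vectors. -/
def vec (i j k : Fin 4) : Fin 4 → ZMod 2 := tab (kind i j) k

/-- Decidable form of linear independence of four vectors in `GF(2)^4`. -/
def ind (u : Fin 4 → Fin 4 → ZMod 2) : Prop :=
  ∀ g : Fin 4 → ZMod 2, (∀ k, ∑ t, g t * u t k = 0) → ∀ t, g t = 0

instance (u : Fin 4 → Fin 4 → ZMod 2) : Decidable (ind u) := by
  unfold ind; infer_instance

theorem ind_iff (u : Fin 4 → Fin 4 → ZMod 2) :
    LinearIndependent (ZMod 2) u ↔ ind u := by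
  rw [Fintype.linearIndependent_iff]
  unfold ind
  constructor
  · intro h g hg
    apply h g
    funext k
    simpa [Finset.sum_apply] using hg k
  · intro h g hg
    apply h g
    intro k
    have := congrFun hg k
    simpa [Finset.sum_apply] using this

theorem ind_tab : ∀ c : Fin 4, ind (tab c) := by decide +kernel

/-- The bases. -/
noncomputable def bas (i j : Fin 4) : Module.Basis (Fin 4) (ZMod 2) (Fin 4 → ZMod 2) :=
  basisOfLinearIndependentOfCardEqFinrank ((ind_iff _).2 (ind_tab (kind i j))) (by simp)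

theorem bas_apply (i j k : Fin 4) : bas i j k = vec i j k := by
  unfold bas vec
  rw [coe_basisOfLinearIndependentOfCardEqFinrank]

/-- Vectors coded by natural numbers `< 16` (bit `k` = coordinate `k`). -/
def code (v : Fin 4 → ZMod 2) : ℕ :=
  (v 0).val + 2 * (v 1).val + 4 * (v 2).val + 8 * (v 3).val

theorem code_add : ∀ x y : Fin 4 → ZMod 2, code (x + y) = code x ^^^ code y := by
  decide +kernel

theorem code_inj : ∀ x y : Fin 4 → ZMod 2, code x = code y → x = y := by
  decide +kernel

def ok2 (a b : ℕ) : Bool := !(a == b)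
def ok3 (a b c : ℕ) : Bool := !(a == c) && !(b == c) && !((a ^^^ b) == c)
def ok4 (a b c d : ℕ) : Bool :=
  !(a == d) && !(b == d) && !(c == d) && !((a ^^^ b) == d) && !((a ^^^ c) == d) &&
  !((b ^^^ c) == d) && !((a ^^^ b ^^^ c) == d)

theorem ne_of_ind {u : Fin 4 → Fin 4 → ZMod 2} (h : ind u) (g : Fin 4 → ZMod 2) (t : Fin 4)
    (hg : g t ≠ 0) : ¬ (∀ k, ∑ t, g t * u t k = 0) := fun hs => hg (h g hs t)

theorem code_ne {x y : Fin 4 → ZMod 2} (h : ¬ (∀ k, x k + y k = 0)) : (code x == code y) = false := by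
  rw [beq_eq_false_iff_ne]
  intro hxy
  apply h
  intro k
  rw [code_inj x y hxy]
  exact CharTwo.add_self_eq_zero _

theorem ok_of_ind {u : Fin 4 → Fin 4 → ZMod 2} (h : ind u) :
    ok2 (code (u 0)) (code (u 1)) = true ∧
    ok3 (code (u 0)) (code (u 1)) (code (u 2)) = true ∧
    ok4 (code (u 0)) (code (u 1)) (code (u 2)) (code (u 3)) = true := by
  unfold ok2 ok3 ok4
  simp only [← code_add]
  have h01 : (code (u 0) == code (u 1)) = false := code_ne (fun hh =>
    ne_of_ind h ![1,1,0,0] 0 (by decide) (fun k => by simpa [Fin.sum_univ_four] using hh k))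
  have h02 : (code (u 0) == code (u 2)) = false := code_ne (fun hh =>
    ne_of_ind h ![1,0,1,0] 0 (by decide) (fun k => by simpa [Fin.sum_univ_four] using hh k))
  have h12 : (code (u 1) == code (u 2)) = false := code_ne (fun hh =>
    ne_of_ind h ![0,1,1,0] 1 (by decide) (fun k => by simpa [Fin.sum_univ_four] using hh k))
  have h012 : (code (u 0 + u 1) == code (u 2)) = false := code_ne (fun hh =>
    ne_of_ind h ![1,1,1,0] 0 (by decide) (fun k => by simpa [Fin.sum_univ_four] using hh k))
  have h03 : (code (u 0) == code (u 3)) = false := code_ne (fun hh =>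
    ne_of_ind h ![1,0,0,1] 0 (by decide) (fun k => by simpa [Fin.sum_univ_four] using hh k))
  have h13 : (code (u 1) == code (u 3)) = false := code_ne (fun hh =>
    ne_of_ind h ![0,1,0,1] 1 (by decide) (fun k => by simpa [Fin.sum_univ_four] using hh k))
  have h23 : (code (u 2) == code (u 3)) = false := code_ne (fun hh =>
    ne_of_ind h ![0,0,1,1] 2 (by decide) (fun k => by simpa [Fin.sum_univ_four] using hh k))
  have h013 : (code (u 0 + u 1) == code (u 3)) = false := code_ne (fun hh =>
    ne_of_ind h ![1,1,0,1] 0 (by decide) (fun k => by simpa [Fin.sum_univ_four] using hh k))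
  have h023 : (code (u 0 + u 2) == code (u 3)) = false := code_ne (fun hh =>
    ne_of_ind h ![1,0,1,1] 0 (by decide) (fun k => by simpa [Fin.sum_univ_four] using hh k))
  have h123 : (code (u 1 + u 2) == code (u 3)) = false := code_ne (fun hh =>
    ne_of_ind h ![0,1,1,1] 1 (by decide) (fun k => by simpa [Fin.sum_univ_four] using hh k))
  have h0123 : (code (u 0 + u 1 + u 2) == code (u 3)) = false := code_ne (fun hh =>
    ne_of_ind h ![1,1,1,1] 0 (by decide) (fun k => by simpa [Fin.sum_univ_four] using hh k))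
  simp [h01, h02, h12, h012, h03, h13, h23, h013, h023, h123, h0123]

def L0 : List ℕ := [1,2,4,8]
def L1 : List ℕ := [2,4,7,14]
def L2 : List ℕ := [1,8,5,10]
def L3 : List ℕ := [7,10,5,14]

theorem mem_L0 : ∀ k, code (tab 0 k) ∈ L0 := by decide +kernel
theorem mem_L1 : ∀ k, code (tab 1 k) ∈ L1 := by decide +kernel
theorem mem_L2 : ∀ k, code (tab 2 k) ∈ L2 := by decide +kernel
theorem mem_L3 : ∀ k, code (tab 3 k) ∈ L3 := by decide +kernel

/-- Boolean implication. -/
def imp (a b : Bool) : Bool := !a || b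

theorem imp_elim {a b : Bool} (h : imp a b = true) (ha : a = true) : b = true := by
  subst ha; simpa [imp] using h

theorem all_elim {l : List ℕ} {f : ℕ → Bool} (h : l.all f = true) {x : ℕ} (hx : x ∈ l) :
    f x = true := List.all_eq_true.1 h x hx

/-- The pruned search. -/
def search : Bool :=
  L0.all fun a0 => L0.all fun a1 => imp (ok2 a0 a1) (L0.all fun a2 => imp (ok3 a0 a1 a2)
  (L1.all fun a3 => imp (ok4 a0 a1 a2 a3)
  (L0.all fun b0 => imp (ok2 a0 b0) (L0.all fun b1 => imp (ok2 b0 b1 && ok2 a1 b1)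
  (L0.all fun b2 => imp (ok3 b0 b1 b2 && ok2 a2 b2)
  (L1.all fun b3 => imp (ok4 b0 b1 b2 b3 && ok2 a3 b3)
  (L0.all fun c0 => imp (ok3 a0 b0 c0) (L0.all fun c1 => imp (ok2 c0 c1 && ok3 a1 b1 c1)
  (L0.all fun c2 => imp (ok3 c0 c1 c2 && ok3 a2 b2 c2)
  (L1.all fun c3 => imp (ok4 c0 c1 c2 c3 && ok3 a3 b3 c3)
  (L2.all fun d0 => imp (ok4 a0 b0 c0 d0) (L2.all fun d1 => imp (ok2 d0 d1 && ok4 a1 b1 c1 d1)
  (L2.all fun d2 => imp (ok3 d0 d1 d2 && ok4 a2 b2 c2 d2)
  (L3.all fun d3 => imp (ok4 d0 d1 d2 d3 && ok4 a3 b3 c3 d3) false))))))))))))))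

theorem search_true : search = true := by decide +kernel

/-- No selection from the sixteen bases has all rows and columns independent. -/
theorem no_selection (s : Fin 4 → Fin 4 → Fin 4)
    (hr : ∀ i, ind (fun j => vec i j (s i j))) (hc : ∀ j, ind (fun i => vec i j (s i j))) :
    False := by
  obtain ⟨r01, r02, r03⟩ := ok_of_ind (hr 0)
  obtain ⟨r11, r12, r13⟩ := ok_of_ind (hr 1)
  obtain ⟨r21, r22, r23⟩ := ok_of_ind (hr 2)
  obtain ⟨r31, r32, r33⟩ := ok_of_ind (hr 3)
  obtain ⟨c01, c02, c03⟩ := ok_of_ind (hc 0)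
  obtain ⟨c11, c12, c13⟩ := ok_of_ind (hc 1)
  obtain ⟨c21, c22, c23⟩ := ok_of_ind (hc 2)
  obtain ⟨c31, c32, c33⟩ := ok_of_ind (hc 3)
  have h := search_true
  unfold search at h
  have h := all_elim h (mem_L0 (s 0 0))
  have h := all_elim h (mem_L0 (s 0 1))
  have h := all_elim (imp_elim h r01) (mem_L0 (s 0 2))
  have h := all_elim (imp_elim h r02) (mem_L1 (s 0 3))
  have h := all_elim (imp_elim h r03) (mem_L0 (s 1 0))
  have h := all_elim (imp_elim h c01) (mem_L0 (s 1 1))
  have h := all_elim (imp_elim h (Bool.and_eq_true_iff.2 ⟨r11, c11⟩)) (mem_L0 (s 1 2))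
  have h := all_elim (imp_elim h (Bool.and_eq_true_iff.2 ⟨r12, c21⟩)) (mem_L1 (s 1 3))
  have h := all_elim (imp_elim h (Bool.and_eq_true_iff.2 ⟨r13, c31⟩)) (mem_L0 (s 2 0))
  have h := all_elim (imp_elim h c02) (mem_L0 (s 2 1))
  have h := all_elim (imp_elim h (Bool.and_eq_true_iff.2 ⟨r21, c12⟩)) (mem_L0 (s 2 2))
  have h := all_elim (imp_elim h (Bool.and_eq_true_iff.2 ⟨r22, c22⟩)) (mem_L1 (s 2 3))
  have h := all_elim (imp_elim h (Bool.and_eq_true_iff.2 ⟨r23, c32⟩)) (mem_L2 (s 3 0))
  have h := all_elim (imp_elim h c03) (mem_L2 (s 3 1))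
  have h := all_elim (imp_elim h (Bool.and_eq_true_iff.2 ⟨r31, c13⟩)) (mem_L2 (s 3 2))
  have h := all_elim (imp_elim h (Bool.and_eq_true_iff.2 ⟨r32, c23⟩)) (mem_L3 (s 3 3))
  have h := imp_elim h (Bool.and_eq_true_iff.2 ⟨r33, c33⟩)
  exact Bool.noConfusion h

/-- The counterexample to Kahn's conjecture, for `K = GF(2)` and `n = 4`. -/
theorem kahn_false :
    ¬ ∃ σ : Fin 4 → Fin 4 → Fin 4,
        (∀ i : Fin 4, LinearIndependent (ZMod 2) (fun j : Fin 4 => bas i j (σ i j))) ∧
        (∀ j : Fin 4, LinearIndependent (ZMod 2) (fun i : Fin 4 => bas i j (σ i j))) := by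
  rintro ⟨σ, hr, hc⟩
  refine no_selection σ (fun i => ?_) (fun j => ?_)
  · have := hr i
    simp only [bas_apply] at this
    exact (ind_iff _).1 this
  · have := hc j
    simp only [bas_apply] at this
    exact (ind_iff _).1 this

end Pool.Agent.W310.Kahn
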