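import Pool.Agent.W957.MF.Stm2

set_option autoImplicit false

namespace Pool.Agent.W310.MFnf

open Finset Pool.Agent.W957.MF

/-- the properties of the recursion -/
structure QP (F : ℕ → ℕ → Prop) (n : ℕ) (q : ℕ → ℤ) : Prop where
  h1 : q (n + 1) = 1
  h2 : q (n + 2) = 0
  h3 : ∀ a, 1 ≤ a → a ≤ n → (∀ s e, F s e → s < a) → q a = 1
  h4 : ∀ a E, 1 ≤ a → a ≤ n → (∃ s, a ≤ s ∧ F s E) → (∀ s e, F s e → a ≤ s → E ≤ e) →
      q a = q (E + 2)

theorem least (F : ℕ → ℕ → Prop) (a s e : ℕ) (has : a ≤ s) (hF : F s e) :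
    ∃ E, (∃ s, a ≤ s ∧ F s E) ∧ ∀ s e, F s e → a ≤ s → E ≤ e := by
  classical
  have hex : ∃ E, ∃ s, a ≤ s ∧ F s E := ⟨e, s, has, hF⟩
  refine ⟨Nat.find hex, Nat.find_spec hex, fun s' e' h h' => Nat.find_min' hex ⟨s', h', h⟩⟩

theorem q01 (F : ℕ → ℕ → Prop) (n : ℕ) (q : ℕ → ℤ) (hF : ∀ s e, F s e → 1 ≤ s ∧ s ≤ e ∧ e ≤ n)
    (hq : QP F n q) : ∀ k a, 1 ≤ a → a ≤ n + 2 → n + 2 - a ≤ k → q a = 0 ∨ q a = 1 := by
  intro k
  induction k with
  | zero =>
    intro a h1 h2 h3
    have : a = n + 2 := by omega
    rw [this]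
    exact Or.inl hq.h2
  | succ k ih =>
    intro a h1 h2 h3
    by_cases ha : a = n + 2
    · rw [ha]; exact Or.inl hq.h2
    by_cases ha' : a = n + 1
    · rw [ha']; exact Or.inr hq.h1
    have han : a ≤ n := by omega
    by_cases hex : ∃ s e, a ≤ s ∧ F s e
    · obtain ⟨s, e, hs, hse⟩ := hex
      obtain ⟨E, hE1, hE2⟩ := least F a s e hs hse
      rw [hq.h4 a E h1 han hE1 hE2]
      obtain ⟨s', hs', hF'⟩ := hE1
      obtain ⟨k1, k2, k3⟩ := hF s' E hF'
      exact ih (E + 2) (by omega) (by omega) (by omega)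
    · right
      refine hq.h3 a h1 han fun s e hse => ?_
      by_contra hh
      exact hex ⟨s, e, by omega, hse⟩

open Classical in
theorem NF_zero (F : ℕ → ℕ → Prop) (n : ℕ) (hn : 1 ≤ n)
    (hF : ∀ s e, F s e → 1 ≤ s ∧ s ≤ e ∧ e ≤ n) (h : ∀ s, ¬ F s n) : NF F n = 0 := by
  unfold NF
  rw [sum_filter]
  have e1 : Icc 1 n = insert n (Icc 1 (n - 1)) := by
    ext x
    simp only [mem_Icc, mem_insert]
    omega
  have hnot : n ∉ Icc 1 (n - 1) := by
    simp only [mem_Icc]
    omega
  rw [e1, sum_powerset_insert hnot, ← sum_add_distrib]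
  refine sum_eq_zero fun t ht => ?_
  have htn : n ∉ t := fun h' => hnot (mem_powerset.1 ht h')
  have hiff : (∀ s e, F s e → ¬ Icc s e ⊆ insert n t) ↔ (∀ s e, F s e → ¬ Icc s e ⊆ t) := by
    constructor
    · intro h1 s e hse h2
      exact h1 s e hse (h2.trans (subset_insert _ _))
    · intro h1 s e hse h2
      refine h1 s e hse fun x hx => ?_
      rcases mem_insert.1 (h2 hx) with h3 | h3
      · exfalso
        obtain ⟨k1, k2, k3⟩ := hF s e hse
        have h4 := (mem_Icc.1 hx).2
        have : e = n := by omega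
        exact h s (this ▸ hse)
      · exact h3
  by_cases hP : ∀ s e, F s e → ¬ Icc s e ⊆ t
  · rw [if_pos hP, if_pos (hiff.2 hP), card_insert_of_notMem htn, pow_succ]
    ring
  · rw [if_neg hP, if_neg (fun h' => hP (hiff.1 h'))]
    ring

theorem t_NF (h : S_NFQ) : S_NF := by
  intro F n hn hF
  obtain ⟨q, h1, h2, h3, h4, h5⟩ := h F n hn hF
  have hq : QP F n q := ⟨h1, h2, h3, h4⟩
  refine ⟨?_, ?_, NF_zero F n hn hF⟩
  · rw [h5, abs_mul, abs_pow, abs_neg, abs_one, one_pow, one_mul]
    rcases q01 F n q hF hq (n + 2) 1 (by omega) (by omega) (by omega) with a | a <;>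
    rcases q01 F n q hF hq (n + 2) 2 (by omega) (by omega) (by omega) with b | b <;>
    rw [a, b] <;> norm_num
  · intro hno
    have hs2 : ∀ s e, F s e → 2 ≤ s := by
      intro s e hse
      obtain ⟨k1, k2, k3⟩ := hF s e hse
      by_contra hh
      have : s = 1 := by omega
      exact hno e (this ▸ hse)
    have e12 : q 1 = q 2 := by
      by_cases hn1 : n = 1
      · have a1 : q 1 = 1 := by
          refine h3 1 le_rfl (by omega) fun s e hse => ?_
          have := hs2 s e hse
          obtain ⟨k1, k2, k3⟩ := hF s e hse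
          omega
        have a2 : q 2 = 1 := by rw [← h1, hn1]
        rw [a1, a2]
      · by_cases hex : ∃ s e, F s e
        · obtain ⟨s, e, hse⟩ := hex
          obtain ⟨E, hE1, hE2⟩ := least F 2 s e (hs2 s e hse) hse
          rw [h4 2 E (by omega) (by omega) hE1 hE2]
          obtain ⟨s', hs', hF'⟩ := hE1
          exact h4 1 E le_rfl (by omega) ⟨s', by omega, hF'⟩
            (fun s e hse _ => hE2 s e hse (hs2 s e hse))
        · have hne : ∀ s e, ¬ F s e := fun s e hse => hex ⟨s, e, hse⟩
          rw [h3 1 le_rfl (by omega) (fun s e hse => absurd hse (hne s e)),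
            h3 2 (by omega) (by omega) (fun s e hse => absurd hse (hne s e))]
    rw [h5, e12, sub_self, mul_zero]

theorem t_AP (h : S_NFQ) : S_AP := by
  intro F p l K n hp hl hn hF hNF
  have hlp : l < p * (l / p + 1) := Nat.lt_mul_div_succ l (by omega)
  have hlp2 : p * (l / p) ≤ l := Nat.mul_div_le l p
  generalize l / p = m at *
  have hF' : ∀ s e, F s e → 1 ≤ s ∧ s ≤ e ∧ e ≤ n := by
    intro s e hse
    obtain ⟨k, hk, rfl, rfl⟩ := (hF s e).1 hse
    have : k * p ≤ K * p := Nat.mul_le_mul_right p hk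
    omega
  have hn1 : 1 ≤ n := by omega
  obtain ⟨q, h1, h2, h3, h4, h5⟩ := h F n hn1 hF'
  -- the recursion for the values after the intervals
  have hT : ∀ j k, k ≤ K → K - k ≤ j → q (k * p + l + 2) = if (m + 1) ∣ (K - k) then 0 else 1 := by
    intro j
    induction j with
    | zero =>
      intro k hk hj
      have : k = K := by omega
      subst this
      rw [if_pos (by simp), ← h2, hn]
      congr 1
      ring
    | succ j ih =>
      intro k hk hj
      by_cases hkK : k = K
      · subst hkK
        rw [if_pos (by simp), ← h2, hn]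
        congr 1
        ring
      have hklt : k < K := by omega
      by_cases hkm : k + m + 1 ≤ K
      · have ha : k * p + l + 2 ≤ n := by
          have e1 : (k + m + 1) * p ≤ K * p := Nat.mul_le_mul_right p hkm
          have e2 : (k + m + 1) * p = k * p + p * (m + 1) := by ring
          omega
        have e3 : (k + m + 1) * p = k * p + p * (m + 1) := by ring
        have hstep : q (k * p + l + 2) = q ((k + m + 1) * p + l + 2) := by
          refine h4 (k * p + l + 2) ((k + m + 1) * p + l) (by omega) ha ?_ ?_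
          · refine ⟨1 + (k + m + 1) * p, by omega, (hF _ _).2 ⟨k + m + 1, hkm, rfl, rfl⟩⟩
          · intro s e hse has
            obtain ⟨k', hk', rfl, rfl⟩ := (hF s e).1 hse
            have hk'' : k + m + 1 ≤ k' := by
              by_contra hlt
              have e4 : k' * p ≤ (k + m) * p := Nat.mul_le_mul_right p (by omega)
              have e5 : (k + m) * p = k * p + p * m := by ring
              omega
            have : (k + m + 1) * p ≤ k' * p := Nat.mul_le_mul_right p hk''
            omega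
        rw [hstep, ih (k + m + 1) hkm (by omega)]
        have e6 : K - k = (K - (k + m + 1)) + (m + 1) := by omega
        rw [e6]
        have e7 : (m + 1) ∣ (K - (k + m + 1)) + (m + 1) ↔ (m + 1) ∣ (K - (k + m + 1)) :=
          Nat.dvd_add_self_right
        by_cases hd : (m + 1) ∣ (K - (k + m + 1))
        · rw [if_pos hd, if_pos (e7.2 hd)]
        · rw [if_neg hd, if_neg (fun h => hd (e7.1 h))]
      · have hnd : ¬ (m + 1) ∣ (K - k) := by
          intro hd
          have := Nat.le_of_dvd (by omega) hd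
          omega
        rw [if_neg hnd]
        have e1 : (k + 1) * p ≤ K * p := Nat.mul_le_mul_right p hklt
        have e2 : (k + 1) * p = k * p + p := by ring
        by_cases ha : k * p + l + 2 = n + 1
        · rw [ha, h1]
        · refine h3 _ (by omega) (by omega) ?_
          intro s e hse
          obtain ⟨k', hk', rfl, rfl⟩ := (hF s e).1 hse
          have e4 : k' * p ≤ (k + m) * p := Nat.mul_le_mul_right p (by omega)
          have e5 : (k + m) * p = k * p + p * m := by ring
          omega
  by_cases hK : K = 0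
  · left
    rw [hK]
    exact dvd_zero _
  have hq1 : q 1 = if (m + 1) ∣ K then 0 else 1 := by
    have a1 : q 1 = q (l + 2) := by
      refine h4 1 l le_rfl hn1 ⟨1, le_rfl, (hF _ _).2 ⟨0, by omega, by simp, by simp⟩⟩ ?_
      intro s e hse _
      obtain ⟨k', hk', rfl, rfl⟩ := (hF s e).1 hse
      omega
    have a2 := hT K 0 (by omega) (by omega)
    rw [zero_mul, zero_add, Nat.sub_zero] at a2
    rw [a1, a2]
  have hpK : p ≤ K * p := Nat.le_mul_of_pos_left p (by omega)
  have hq2 : q 2 = if (m + 1) ∣ (K - 1) then 0 else 1 := by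
    have a1 : q 2 = q (1 * p + l + 2) := by
      refine h4 2 (1 * p + l) (by omega) (by omega)
        ⟨1 + 1 * p, by omega, (hF _ _).2 ⟨1, by omega, rfl, rfl⟩⟩ ?_
      intro s e hse has
      obtain ⟨k', hk', rfl, rfl⟩ := (hF s e).1 hse
      have hk1 : 1 ≤ k' := by
        by_contra hlt
        have : k' = 0 := by omega
        subst this
        omega
      have : 1 * p ≤ k' * p := Nat.mul_le_mul_right p hk1
      omega
    rw [a1, hT K 1 (by omega) (by omega)]
  by_contra hcon
  rw [not_or, not_and] at hcon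
  apply hNF
  rw [h5, hq1, hq2, if_neg hcon.1, if_neg (hcon.2 (by omega)), sub_self, mul_zero]

theorem card_div (N : ℕ) : N.divisors.card ≤ 2 * Nat.sqrt N := by
  have h1 : N.divisors ⊆ Icc 1 (Nat.sqrt N) ∪ (Icc 1 (Nat.sqrt N)).image (fun d => N / d) := by
    intro d hd
    obtain ⟨⟨e, he⟩, hN⟩ := Nat.mem_divisors.1 hd
    have hd0 : 0 < d := Nat.pos_of_ne_zero (by rintro rfl; simp at he; omega)
    have he0 : 0 < e := Nat.pos_of_ne_zero (by rintro rfl; simp at he; omega)
    rw [mem_union]
    by_cases hdN : d ≤ Nat.sqrt N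
    · left
      exact mem_Icc.2 ⟨hd0, hdN⟩
    · right
      rw [mem_image]
      refine ⟨e, mem_Icc.2 ⟨he0, ?_⟩, ?_⟩
      · by_contra hlt
        have h2 := Nat.lt_succ_sqrt N
        have h3 : (Nat.sqrt N + 1) * (Nat.sqrt N + 1) ≤ d * e :=
          Nat.mul_le_mul (by omega) (by omega)
        simp only [Nat.succ_eq_add_one] at h2
        omega
      · rw [he]
        exact Nat.mul_div_cancel _ he0
  refine (card_le_card h1).trans ((card_union_le _ _).trans ?_)
  have h2 : ((Icc 1 (Nat.sqrt N)).image (fun d => N / d)).card ≤ (Icc 1 (Nat.sqrt N)).card :=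
    card_image_le
  rw [Nat.card_Icc] at h2 ⊢
  omega

theorem t_APC : S_APC := by
  classical
  intro p n hp
  set N := n / p with hN
  have h1 : ((Icc 1 n).filter (fun l => ∃ K, n = l + K * p ∧
    ((l / p + 1) ∣ K ∨ (1 ≤ K ∧ (l / p + 1) ∣ (K - 1))))).card
      ≤ ((N + 1).divisors ∪ N.divisors).card := by
    refine card_le_card_of_injOn (fun l => l / p + 1) ?_ ?_
    · intro l hl
      obtain ⟨-, K, hK, hd⟩ := mem_filter.1 (mem_coe.1 hl)
      have e1 : N = l / p + K := by
        rw [hN, hK, Nat.add_mul_div_right _ _ (by omega)]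
      change l / p + 1 ∈ ((N + 1).divisors ∪ N.divisors : Finset ℕ)
      rw [mem_union]
      rcases hd with hd | ⟨hK1, hd⟩
      · left
        rw [Nat.mem_divisors]
        refine ⟨?_, Nat.succ_ne_zero _⟩
        have e2 : N + 1 = K + (l / p + 1) := by omega
        rw [e2]
        exact Nat.dvd_add_self_right.2 hd
      · right
        rw [Nat.mem_divisors]
        refine ⟨?_, by rw [e1]; exact Nat.ne_of_gt (Nat.add_pos_right _ hK1)⟩
        have e2 : N = (K - 1) + (l / p + 1) := by omega
        rw [e2]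
        exact Nat.dvd_add_self_right.2 hd
    · intro l hl l' hl' hll
      obtain ⟨-, K, hK, -⟩ := mem_filter.1 (mem_coe.1 hl)
      obtain ⟨-, K', hK', -⟩ := mem_filter.1 (mem_coe.1 hl')
      change l / p + 1 = l' / p + 1 at hll
      have e1 : N = l / p + K := by
        rw [hN, hK, Nat.add_mul_div_right _ _ (by omega)]
      have e2 : N = l' / p + K' := by
        rw [hN, hK', Nat.add_mul_div_right _ _ (by omega)]
      have e3 : K = K' := by omega
      subst e3
      omega
  refine h1.trans ((card_union_le _ _).trans ?_)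
  have h2 := card_div (N + 1)
  have h3 := card_div N
  have h4 : Nat.sqrt N ≤ Nat.sqrt (N + 1) := Nat.sqrt_le_sqrt (by omega)
  omega

end Pool.Agent.W310.MFnf
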